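import Pool.Agent.Lib.MP_bec4cd_an.Final

set_option autoImplicit false

universe u

namespace Pool.Agent.Results.MP_bec4cd_an.CantorIff

/-- Let `X` be a separable real Banach space. The dual of `X` is not separable if and only if the
unit sphere contains a norm-homeomorphic copy `K` of the (middle-thirds) Cantor set such that, for
some `ε > 0`, support functionals at distinct points of `K` are always at least `ε` apart. -/
theorem result (X : Type u) [NormedAddCommGroup X] [NormedSpace ℝ X] [CompleteSpace X]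
    [TopologicalSpace.SeparableSpace X] :
    ¬ TopologicalSpace.SeparableSpace (X →L[ℝ] ℝ) ↔
      ∃ K : Set X, K ⊆ Metric.sphere (0 : X) 1 ∧ Nonempty (K ≃ₜ cantorSet) ∧
        ∃ ε : ℝ, 0 < ε ∧ ∀ x ∈ K, ∀ y ∈ K, x ≠ y → ∀ f g : X →L[ℝ] ℝ,
          (‖f‖ = 1 ∧ f x = 1) → (‖g‖ = 1 ∧ g y = 1) → ε ≤ ‖f - g‖ := by
  constructor
  · intro h
    obtain ⟨K, hK, ⟨e⟩, ε, hε, hsep⟩ :=
      Pool.Agent.MP_bec4cd_an.cantor_of_nonseparable_dual (X := X) h
    refine ⟨K, hK, ⟨e.trans cantorSetHomeomorphNatToBool.symm⟩, ε, hε, ?_⟩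
    intro x hx y hy hxy f g hf hg
    exact hsep x hx y hy hxy f g hf.1 hf.2 hg.1 hg.2
  · rintro ⟨K, hK, ⟨e⟩, ε, hε, hsep⟩ hsepdual
    have hex : ∀ x : K, ∃ f : X →L[ℝ] ℝ, ‖f‖ = 1 ∧ f x = 1 := by
      intro x
      have hx : ‖(x : X)‖ = 1 := by simpa using hK x.2
      have hx0 : (x : X) ≠ 0 := by
        intro h0
        rw [h0, norm_zero] at hx
        exact zero_ne_one hx
      obtain ⟨f, hf1, hf2⟩ := exists_dual_vector ℝ (x : X) (by rwa [ne_eq, norm_eq_zero])
      refine ⟨f, hf1, ?_⟩
      rw [hf2, hx]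
      rfl
    choose F hF using hex
    have hdisj : (Set.univ : Set K).PairwiseDisjoint fun x => Metric.ball (F x) (ε / 2) := by
      intro x _ y _ hxy
      apply Metric.ball_disjoint_ball
      rw [dist_eq_norm]
      have := hsep x x.2 y y.2 (fun h => hxy (Subtype.ext h)) (F x) (F y) (hF x) (hF y)
      linarith
    have hcount : (Set.univ : Set K).Countable :=
      hdisj.countable_of_isOpen (fun _ _ => Metric.isOpen_ball)
        (fun x _ => ⟨F x, Metric.mem_ball_self (by linarith)⟩)
    have hK' : Countable K := Set.countable_univ_iff.mp hcount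
    have hcb : Countable (ℕ → Bool) :=
      (e.trans cantorSetHomeomorphNatToBool).symm.injective.countable
    obtain ⟨G, hG⟩ := exists_surjective_nat (ℕ → Bool)
    obtain ⟨n, hn⟩ := hG fun n => !(G n n)
    have h1 := congrFun hn n
    simp at h1

end Pool.Agent.Results.MP_bec4cd_an.CantorIff
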